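import Mathlib
import Pool.Agent.H66.QAut

set_option autoImplicit false

namespace Pool.Agent.Results.MP_8cf907_al.ClassicalAut

universe u v

/-- magic unitary: projections, with all rows and columns summing to `1`. -/
def IsMagic {X A : Type*} [Fintype X] [CStarAlgebra A] (u : Matrix X X A) : Prop :=
  (∀ i j, IsStarProjection (u i j)) ∧ (∀ i, ∑ j, u i j = 1) ∧ ∀ j, ∑ i, u i j = 1

/-- the defining relations of the quantum automorphism group of the complete hypergraph on `V`. -/
def Rel {V A : Type*} [Fintype V] [DecidableEq V] [CStarAlgebra A] (u : Matrix V V A)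
    (w : Matrix (Finset V × Finset V) (Finset V × Finset V) A) : Prop :=
  IsMagic u ∧ IsMagic w ∧
    (Matrix.of fun (v : V) (e : Finset V × Finset V) => if v ∈ e.1 then (1 : A) else 0) * w =
      u * (Matrix.of fun (v : V) (e : Finset V × Finset V) => if v ∈ e.1 then (1 : A) else 0) ∧
    (Matrix.of fun (v : V) (e : Finset V × Finset V) => if v ∈ e.2 then (1 : A) else 0) * w =
      u * (Matrix.of fun (v : V) (e : Finset V × Finset V) => if v ∈ e.2 then (1 : A) else 0)

theorem result (V : Type u) [Fintype V] [DecidableEq V] :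
    (∀ (A : Type v) [CStarAlgebra A] (u : Matrix V V A)
      (w : Matrix (Finset V × Finset V) (Finset V × Finset V) A), Rel u w →
        (∀ a b c d, Commute (u a b) (u c d)) ∧ (∀ a b e f, Commute (u a b) (w e f)) ∧
          ∀ e f e' f', Commute (w e f) (w e' f')) ∧
    (4 ≤ Fintype.card V → ∃ (B : Type) (_ : CStarAlgebra B) (u : Matrix V V B),
      IsMagic u ∧ ¬ ∃ w, Rel u w) := by
  have h1 : ∀ (A : Type v) [CStarAlgebra A] (u : Matrix V V A)
      (w : Matrix (Finset V × Finset V) (Finset V × Finset V) A), Rel u w →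
        (∀ a b c d, Commute (u a b) (u c d)) ∧ (∀ a b e f, Commute (u a b) (w e f)) ∧
          ∀ e f e' f', Commute (w e f) (w e' f') := by
    rintro A _ u w ⟨-, hw, hs, hr⟩
    refine Pool.Agent.H66.QAut.main u w hw.1 hw.2.2 (fun v f => ?_) (fun v f => ?_)
    · simpa [Matrix.mul_apply] using congrFun (congrFun hs v) f
    · simpa [Matrix.mul_apply] using congrFun (congrFun hr v) f
  refine ⟨h1, fun hV => ?_⟩
  letI : CStarAlgebra (Matrix (Fin 2) (Fin 2) ℂ) := Matrix.instCStarAlgebra
  obtain ⟨u, hu1, hu2, hu3, a, c, ha, hc⟩ := Pool.Agent.H66.QAut.exists_magic V hV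
    (!![1, 0; 0, 0] : Matrix (Fin 2) (Fin 2) ℂ) !![1 / 2, 1 / 2; 1 / 2, 1 / 2]
    ⟨by ext i j; fin_cases i <;> fin_cases j <;> simp,
      by ext i j; fin_cases i <;> fin_cases j <;> simp⟩
    ⟨by ext i j; fin_cases i <;> fin_cases j <;> simp <;> norm_num,
      by ext i j; fin_cases i <;> fin_cases j <;> simp⟩
  refine ⟨Matrix (Fin 2) (Fin 2) ℂ, inferInstance, u, ⟨hu1, hu2, hu3⟩, ?_⟩
  rintro ⟨w, -, hw, hs, hr⟩
  have h2 := (Pool.Agent.H66.QAut.main u w hw.1 hw.2.2
    (fun v f => by simpa [Matrix.mul_apply] using congrFun (congrFun hs v) f)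
    (fun v f => by simpa [Matrix.mul_apply] using congrFun (congrFun hr v) f)).1 a a c c
  rw [ha, hc] at h2
  have := congrFun (congrFun h2.eq 0) 1
  simp [Matrix.mul_apply] at this

end Pool.Agent.Results.MP_8cf907_al.ClassicalAut
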